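import Pool.Agent.LE.StmtsZ

/-!
# PCR: the Poincare inequality on cubes of `ℤ^d`
-/

set_option autoImplicit false

open scoped BigOperators

noncomputable section

namespace Pool.Agent.LE.H19Z

open Pool.Agent.LE Pool.Agent.Anderson Pool.Agent.Loc

theorem mem_bx {d : ℕ} (p x : Site d) (s : ℕ) :
    x ∈ box p s ↔ ∀ i, p i - s ≤ x i ∧ x i ≤ p i + s := by
  unfold box
  rw [Finset.mem_Icc, Pi.le_def, Pi.le_def]
  constructor
  · intro h i
    exact ⟨h.1 i, h.2 i⟩
  · intro h
    exact ⟨fun i => (h i).1, fun i => (h i).2⟩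

theorem card_bx {d : ℕ} (p : Site d) (s : ℕ) :
    ((box p s).card : ℝ) = (2 * (s : ℝ) + 1) ^ d := by
  unfold box
  rw [Pi.card_Icc]
  have h : ∀ i : Fin d, (Finset.Icc (p i - (s : ℤ)) (p i + s)).card = 2 * s + 1 := by
    intro i
    rw [Int.card_Icc]
    omega
  rw [Finset.prod_congr rfl fun i _ => h i, Finset.prod_const, Finset.card_univ, Fintype.card_fin]
  push_cast
  rfl

/-- the line energy bound -/
theorem line_bound (g : ℤ → ℝ) (a : ℤ) (n : ℕ) (b c : ℤ) (hb : a ≤ b) (hb' : b ≤ a + n)
    (hc : a ≤ c) (hc' : c ≤ a + n) :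
    (g b - g c) ^ 2 ≤ n * ∑ k ∈ Finset.Ico a (a + n), (g (k + 1) - g k) ^ 2 := by
  wlog hbc : c ≤ b generalizing b c with H
  · have := H c b hc hc' hb hb' (by omega)
    rw [← neg_sub (g b) (g c), neg_sq] at this
    exact this
  obtain ⟨m, rfl⟩ := Int.le.dest hbc
  have htel : g (c + m) - g c = ∑ k ∈ Finset.range m, (g (c + k + 1) - g (c + k)) := by
    have := Finset.sum_range_sub (fun k : ℕ => g (c + k)) m
    rw [Nat.cast_zero, add_zero] at this
    rw [← this]
    refine Finset.sum_congr rfl fun k _ => ?_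
    rw [Nat.cast_add, Nat.cast_one, ← add_assoc]
  rw [htel]
  have h1 := sq_sum_le_card_mul_sum_sq (s := Finset.range m)
    (f := fun k : ℕ => g (c + k + 1) - g (c + k))
  rw [Finset.card_range] at h1
  refine h1.trans ?_
  have hmn : (m : ℝ) ≤ n := by
    have : (m : ℤ) ≤ n := by omega
    exact_mod_cast this
  have h2 : ∑ k ∈ Finset.range m, (g (c + k + 1) - g (c + k)) ^ 2 ≤
      ∑ k ∈ Finset.Ico a (a + n), (g (k + 1) - g k) ^ 2 := by
    have h3 : ∑ k ∈ Finset.range m, (g (c + k + 1) - g (c + k)) ^ 2 =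
        ∑ k ∈ (Finset.range m).image (fun k : ℕ => c + (k : ℤ)), (g (k + 1) - g k) ^ 2 := by
      rw [Finset.sum_image]
      intro x _ y _ hxy
      simpa using hxy
    rw [h3]
    refine Finset.sum_le_sum_of_subset_of_nonneg ?_ fun _ _ _ => sq_nonneg _
    intro k hk
    rw [Finset.mem_image] at hk
    obtain ⟨j, hj, rfl⟩ := hk
    rw [Finset.mem_range] at hj
    rw [Finset.mem_Ico]
    constructor
    · omega
    · omega
  have h4 : 0 ≤ ∑ k ∈ Finset.range m, (g (c + k + 1) - g (c + k)) ^ 2 :=
    Finset.sum_nonneg fun _ _ => sq_nonneg _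
  exact mul_le_mul hmn h2 h4 (Nat.cast_nonneg n)

/-- exchange of one coordinate -/
theorem swap_one {d : ℕ} (p : Site d) (s : ℕ) (i : Fin d) (G : Site d → ℤ → ℝ) :
    ∑ x ∈ box p s, ∑ c ∈ Finset.Icc (p i - (s : ℤ)) (p i + s), G (Function.update x i c) (x i) =
      ∑ x ∈ box p s, ∑ c ∈ Finset.Icc (p i - (s : ℤ)) (p i + s), G x c := by
  rw [← Finset.sum_product', ← Finset.sum_product']
  refine Finset.sum_nbij' (fun z => (Function.update z.1 i z.2, z.1 i))
    (fun z => (Function.update z.1 i z.2, z.1 i)) ?_ ?_ ?_ ?_ ?_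
  · rintro ⟨x, c⟩ h
    rw [Finset.mem_product, mem_bx, Finset.mem_Icc] at h
    rw [Finset.mem_product, mem_bx, Finset.mem_Icc]
    refine ⟨fun j => ?_, h.1 i⟩
    by_cases hj : j = i
    · subst hj
      simpa using h.2
    · simpa [Function.update_of_ne hj] using h.1 j
  · rintro ⟨x, c⟩ h
    rw [Finset.mem_product, mem_bx, Finset.mem_Icc] at h
    rw [Finset.mem_product, mem_bx, Finset.mem_Icc]
    refine ⟨fun j => ?_, h.1 i⟩
    by_cases hj : j = i
    · subst hj
      simpa using h.2
    · simpa [Function.update_of_ne hj] using h.1 j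
  · rintro ⟨x, c⟩ _
    simp
  · rintro ⟨x, c⟩ _
    simp
  · rintro ⟨x, c⟩ _
    simp

/-- exchange of the coordinates before `k` -/
def mix {d : ℕ} (k : ℕ) (x y : Site d) : Site d := fun j => if (j : ℕ) < k then y j else x j

theorem swap_mix {d : ℕ} (p : Site d) (s k : ℕ) (G : Site d → Site d → ℝ) :
    ∑ x ∈ box p s, ∑ y ∈ box p s, G (mix k x y) (mix k y x) =
      ∑ x ∈ box p s, ∑ y ∈ box p s, G x y := by
  rw [← Finset.sum_product', ← Finset.sum_product']
  have hm : ∀ z : Site d × Site d, z ∈ box p s ×ˢ box p s →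
      (mix k z.1 z.2, mix k z.2 z.1) ∈ box p s ×ˢ box p s := by
    rintro ⟨x, y⟩ h
    rw [Finset.mem_product, mem_bx, mem_bx] at h
    rw [Finset.mem_product, mem_bx, mem_bx]
    refine ⟨fun j => ?_, fun j => ?_⟩
    · by_cases hj : (j : ℕ) < k
      · simpa [mix, hj] using h.2 j
      · simpa [mix, hj] using h.1 j
    · by_cases hj : (j : ℕ) < k
      · simpa [mix, hj] using h.1 j
      · simpa [mix, hj] using h.2 j
  have hi : ∀ z : Site d × Site d, (mix k (mix k z.1 z.2) (mix k z.2 z.1),
      mix k (mix k z.2 z.1) (mix k z.1 z.2)) = z := by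
    rintro ⟨x, y⟩
    refine Prod.ext (funext fun j => ?_) (funext fun j => ?_)
    · by_cases hj : (j : ℕ) < k
      · simp [mix, hj]
      · simp [mix, hj]
    · by_cases hj : (j : ℕ) < k
      · simp [mix, hj]
      · simp [mix, hj]
  refine Finset.sum_nbij' (fun z => (mix k z.1 z.2, mix k z.2 z.1))
    (fun z => (mix k z.1 z.2, mix k z.2 z.1)) hm hm (fun z _ => hi z) (fun z _ => hi z) ?_
  intro z _
  rfl

/-- the energy in the direction `i` -/
def egi {d : ℕ} (h : Site d → ℝ) (p : Site d) (s : ℕ) (i : Fin d) : ℝ :=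
  ∑ x ∈ box p s, if x + Pi.single i 1 ∈ box p s then (h (x + Pi.single i 1) - h x) ^ 2 else 0

theorem eg_eq {d : ℕ} (h : Site d → ℝ) (p : Site d) (s : ℕ) :
    eg h p s = ∑ i, egi h p s i := by
  unfold eg egi
  rw [Finset.sum_comm]

theorem line_sum {d : ℕ} (f : Site d → ℝ) (p : Site d) (s : ℕ) (i : Fin d) :
    ∑ x ∈ box p s, ∑ c ∈ Finset.Ico (p i - (s : ℤ)) (p i + s),
      (f (Function.update x i (c + 1)) - f (Function.update x i c)) ^ 2 =
      (2 * (s : ℝ) + 1) * egi f p s i := by
  have h1 := swap_one p s i (fun x _ =>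
    if x + Pi.single i 1 ∈ box p s then (f (x + Pi.single i 1) - f x) ^ 2 else 0)
  have h2 : ∑ x ∈ box p s, ∑ c ∈ Finset.Icc (p i - (s : ℤ)) (p i + s),
      (if x + Pi.single i 1 ∈ box p s then (f (x + Pi.single i 1) - f x) ^ 2 else 0) =
      (2 * (s : ℝ) + 1) * egi f p s i := by
    unfold egi
    rw [Finset.mul_sum]
    refine Finset.sum_congr rfl fun x _ => ?_
    rw [Finset.sum_const, Int.card_Icc, nsmul_eq_mul]
    have : ((p i + (s : ℤ) + 1 - (p i - s)).toNat : ℝ) = 2 * (s : ℝ) + 1 := by
      have h3 : (p i + (s : ℤ) + 1 - (p i - s)).toNat = 2 * s + 1 := by omega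
      rw [h3]
      push_cast
      ring
    rw [this]
  rw [← h2, ← h1]
  refine Finset.sum_congr rfl fun x hx => ?_
  rw [mem_bx] at hx
  have hsub : Finset.Ico (p i - (s : ℤ)) (p i + s) ⊆ Finset.Icc (p i - (s : ℤ)) (p i + s) :=
    Finset.Ico_subset_Icc_self
  rw [← Finset.sum_subset hsub]
  · refine Finset.sum_congr rfl fun c hc => ?_
    rw [Finset.mem_Ico] at hc
    have he : Function.update x i c + Pi.single i 1 = Function.update x i (c + 1) := by
      funext j
      by_cases hj : j = i
      · subst hj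
        simp
      · simp [Function.update_of_ne hj, Pi.single_eq_of_ne hj]
    have hm : Function.update x i c + Pi.single i 1 ∈ box p s := by
      rw [he, mem_bx]
      intro j
      by_cases hj : j = i
      · subst hj
        rw [Function.update_self]
        constructor
        · omega
        · omega
      · rw [Function.update_of_ne hj]
        exact hx j
    rw [if_pos hm, he]
  · intro c hc hc'
    rw [Finset.mem_Icc] at hc
    rw [Finset.mem_Ico] at hc'
    have hceq : c = p i + s := by omega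
    have hm : ¬ (Function.update x i c + Pi.single i 1 ∈ box p s) := by
      rw [mem_bx]
      intro h
      have := (h i).2
      simp only [Pi.add_apply, Function.update_self, Pi.single_eq_same] at this
      omega
    rw [if_neg hm]

theorem pcr : PcrStmt := by
  intro d f p s hd
  set n : ℝ := 2 * (s : ℝ) + 1 with hn
  have hn0 : 0 < n := by positivity
  have hN : (0 : ℝ) < n ^ d := by positivity
  have hcard := card_bx p s
  rw [← hn] at hcard
  -- variance by pairs
  have h1 : ∀ x, (f x - av f p s) ^ 2 ≤ (1 / n ^ d) * ∑ y ∈ box p s, (f y - f x) ^ 2 := by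
    intro x
    have e1 : f x - av f p s = -((∑ y ∈ box p s, (f y - f x)) / n ^ d) := by
      rw [Finset.sum_sub_distrib, Finset.sum_const, nsmul_eq_mul, hcard]
      unfold av
      field_simp
      ring
    have e2 := sq_sum_le_card_mul_sum_sq (s := box p s) (f := fun y => f y - f x)
    rw [hcard] at e2
    rw [e1, neg_sq, div_pow, div_le_iff₀ (by positivity)]
    refine e2.trans (le_of_eq ?_)
    field_simp
  have h2 : ∑ x ∈ box p s, (f x - av f p s) ^ 2 ≤
      (1 / n ^ d) * ∑ x ∈ box p s, ∑ y ∈ box p s, (f y - f x) ^ 2 := by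
    rw [Finset.mul_sum]
    exact Finset.sum_le_sum fun x _ => h1 x
  -- telescoping
  have h3 : ∀ x y, (f y - f x) ^ 2 ≤ d * ∑ i : Fin d,
      (f (mix (i + 1) x y) - f (mix i x y)) ^ 2 := by
    intro x y
    have e1 : f y - f x = ∑ i ∈ Finset.range d, (f (mix (i + 1) x y) - f (mix i x y)) := by
      rw [Finset.sum_range_sub (fun i => f (mix i x y)) d]
      have a1 : mix d x y = y := by
        funext j
        simp [mix, j.isLt]
      have a2 : mix 0 x y = x := by
        funext j
        simp [mix]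
      rw [a1, a2]
    rw [e1]
    have e2 := sq_sum_le_card_mul_sum_sq (s := Finset.range d)
      (f := fun i => f (mix (i + 1) x y) - f (mix i x y))
    rw [Finset.card_range, Finset.sum_range (fun i => (f (mix (i + 1) x y) - f (mix i x y)) ^ 2)]
      at e2
    exact e2
  have h4 : ∀ i : Fin d, ∑ x ∈ box p s, ∑ y ∈ box p s,
      (f (mix (i + 1) x y) - f (mix i x y)) ^ 2 ≤ n ^ 2 * n ^ d * egi f p s i := by
    intro i
    have e1 : ∀ x y : Site d, mix ((i : ℕ) + 1) x y =
        Function.update (mix i x y) i ((mix i y x) i) := by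
      intro x y
      funext j
      by_cases hj : j = i
      · subst hj
        simp [mix]
      · rw [Function.update_of_ne hj]
        have hj' : (j : ℕ) ≠ i := fun h => hj (Fin.ext h)
        by_cases hlt : (j : ℕ) < i
        · have : (j : ℕ) < i + 1 := by omega
          simp [mix, hlt, this]
        · have : ¬ ((j : ℕ) < i + 1) := by omega
          simp [mix, hlt, this]
    have e2 := swap_mix p s i (fun x y => (f (Function.update x i (y i)) - f x) ^ 2)
    have e3 : ∑ x ∈ box p s, ∑ y ∈ box p s, (f (mix (i + 1) x y) - f (mix i x y)) ^ 2 =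
        ∑ x ∈ box p s, ∑ y ∈ box p s, (f (Function.update x i (y i)) - f x) ^ 2 := by
      rw [← e2]
      refine Finset.sum_congr rfl fun x _ => Finset.sum_congr rfl fun y _ => ?_
      rw [e1]
    rw [e3]
    have e4 : ∀ x ∈ box p s, ∀ y ∈ box p s, (f (Function.update x i (y i)) - f x) ^ 2 ≤
        n * ∑ c ∈ Finset.Ico (p i - (s : ℤ)) (p i + s),
          (f (Function.update x i (c + 1)) - f (Function.update x i c)) ^ 2 := by
      intro x hx y hy
      rw [mem_bx] at hx hy
      have b := line_bound (fun c => f (Function.update x i c)) (p i - s) (2 * s) (y i) (x i)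
        (hy i).1 (by have := (hy i).2; push_cast; omega) (hx i).1
        (by have := (hx i).2; push_cast; omega)
      simp only [Function.update_eq_self] at b
      have hI : p i - (s : ℤ) + ((2 * s : ℕ) : ℤ) = p i + s := by push_cast; ring
      rw [hI] at b
      refine b.trans ?_
      refine mul_le_mul_of_nonneg_right ?_ (Finset.sum_nonneg fun _ _ => sq_nonneg _)
      rw [hn]
      push_cast
      linarith
    calc ∑ x ∈ box p s, ∑ y ∈ box p s, (f (Function.update x i (y i)) - f x) ^ 2
        ≤ ∑ x ∈ box p s, ∑ _y ∈ box p s, n * ∑ c ∈ Finset.Ico (p i - (s : ℤ)) (p i + s),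
          (f (Function.update x i (c + 1)) - f (Function.update x i c)) ^ 2 :=
          Finset.sum_le_sum fun x hx => Finset.sum_le_sum fun y hy => e4 x hx y hy
      _ = n ^ d * (n * ∑ x ∈ box p s, ∑ c ∈ Finset.Ico (p i - (s : ℤ)) (p i + s),
          (f (Function.update x i (c + 1)) - f (Function.update x i c)) ^ 2) := by
          rw [Finset.mul_sum, Finset.mul_sum]
          refine Finset.sum_congr rfl fun x _ => ?_
          rw [Finset.sum_const, nsmul_eq_mul, hcard]
      _ = n ^ 2 * n ^ d * egi f p s i := by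
          rw [line_sum, ← hn]
          ring
  have h5 : ∑ x ∈ box p s, ∑ y ∈ box p s, (f y - f x) ^ 2 ≤ d * (n ^ 2 * n ^ d * eg f p s) := by
    calc ∑ x ∈ box p s, ∑ y ∈ box p s, (f y - f x) ^ 2
        ≤ ∑ x ∈ box p s, ∑ y ∈ box p s, (d * ∑ i : Fin d,
          (f (mix (i + 1) x y) - f (mix i x y)) ^ 2) :=
          Finset.sum_le_sum fun x _ => Finset.sum_le_sum fun y _ => h3 x y
      _ = d * ∑ i : Fin d, ∑ x ∈ box p s, ∑ y ∈ box p s,
          (f (mix (i + 1) x y) - f (mix i x y)) ^ 2 := by
          simp only [← Finset.mul_sum]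
          congr 1
          rw [Finset.sum_comm]
          have : ∀ x, ∑ y ∈ box p s, ∑ i : Fin d, (f (mix (i + 1) x y) - f (mix i x y)) ^ 2 =
              ∑ i : Fin d, ∑ y ∈ box p s, (f (mix (i + 1) x y) - f (mix i x y)) ^ 2 :=
            fun x => Finset.sum_comm
          rw [Finset.sum_comm]
          rw [Finset.sum_congr rfl fun x _ => this x, Finset.sum_comm]
      _ ≤ d * (n ^ 2 * n ^ d * eg f p s) := by
          refine mul_le_mul_of_nonneg_left ?_ (Nat.cast_nonneg d)
          rw [eg_eq, Finset.mul_sum]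
          exact Finset.sum_le_sum fun i _ => h4 i
  refine h2.trans ?_
  calc (1 / n ^ d) * ∑ x ∈ box p s, ∑ y ∈ box p s, (f y - f x) ^ 2
      ≤ (1 / n ^ d) * (d * (n ^ 2 * n ^ d * eg f p s)) :=
        mul_le_mul_of_nonneg_left h5 (by positivity)
    _ = d * n ^ 2 * eg f p s := by
        field_simp

end Pool.Agent.LE.H19Z
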